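import Pool.Agent.L0h76.H.A
import Pool.Agent.L0h76.H.B
import Pool.Agent.L0h76.H.B3
import Pool.Agent.L0h76.H.D
import Pool.Agent.L0h76.H.F

/-!
# MP_dc06b6_nt, Q1: hybrid Hammersley / lattice point sets with small discrepancy

For distinct primes `b_1, …, b_s` and every prime `N ≥ 3` outside `{b_1, …, b_s}` there is
`g ∈ {1, …, N - 1}^t` such that the hybrid point set
`(n / N, φ_{b_1}(n), …, φ_{b_s}(n), {n g / N})`, `n < N`, has discrepancy at most
`C (log N)^(s+t) log log N / N`, with `C` depending only on `s, t, b_1, …, b_s`.  In particular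
(second part, Q1 of the problem) for every `ε > 0` the bound `C (log N)^(s+t+ε) / N` holds for
every prime `N` outside `{b_1, …, b_s}` and some `g`.

The definitions used:
* `Pool.Agent.L0h76.H.radInv b n = ∑_{j < n} (n / b^j % b) / b^(j+1)`, the radical inverse
  (all digits with index `j ≥ n` vanish);
* `Pool.Agent.L0h76.H.pt b N g n : Unit ⊕ (Fin s ⊕ Fin t) → ℝ`, the `n`-th point;
* `Pool.Agent.L0h76.H.boxCount N z u v`, the number of `n < N` with `u i ≤ z n i < v i` for all `i`;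
* `Pool.Agent.L0h76.H.disc N z`, the supremum over all boxes `[u, v) ⊆ [0, 1)^ι` of
  `|boxCount N z u v / N - ∏ (v i - u i)|` (bounded by `disc_bddAbove`).
-/

set_option autoImplicit false

namespace Pool.Agent.Results.MP_dc06b6_nt.LogLogBound

open Pool.Agent.L0h76.H

theorem result (s t : ℕ) (b : Fin s → ℕ) (hb : ∀ j, (b j).Prime)
    (hinj : Function.Injective b) :
    (∃ C : ℝ, ∀ N : ℕ, N.Prime → 3 ≤ N → (∀ j, b j ≠ N) →
      ∃ g : Fin t → ℕ, (∀ i, 1 ≤ g i ∧ g i ≤ N - 1) ∧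
        disc N (pt b N g) ≤ C * (Real.log N ^ (s + t) * Real.log (Real.log N)) / N) ∧
    ∀ ε : ℝ, 0 < ε → ∃ C : ℝ, ∀ N : ℕ, N.Prime → (∀ j, b j ≠ N) →
      ∃ g : Fin t → ℕ, (∀ i, 1 ≤ g i ∧ g i ≤ N - 1) ∧
        disc N (pt b N g) ≤ C * Real.log N ^ ((s : ℝ) + t + ε) / N :=
  final stA1 stA2 stA3 stB1 stB2 stB3 stD s t b hb hinj

end Pool.Agent.Results.MP_dc06b6_nt.LogLogBound
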